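import Pool.Agent.W516.K3.Defs

/-!
# Extension of an endomorphism of the top eigenspace

Let `R` be the subspace of `T × T` generated by the graph of `j` on the eigenspace `T₁` under the
products of elements of negative degree.  It is stable under `g` (induction on the length of the
product, moving elements of nonnegative degree to the right), its part of degree one is the graph of
`j`, so by irreducibility it is the graph of an endomorphism `J` of `T`.
-/

set_option autoImplicit false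

namespace W973.DK

open Module Pool.Agent.W516.K3

variable {T : Type} [AddCommGroup T] [Module ℝ T]

/-- elements of `g` of degree `k` -/
def gr (g : Submodule ℝ (Module.End ℝ T)) (h : Module.End ℝ T) (k : ℤ) :
    Set (Module.End ℝ T) := {x | x ∈ g ∧ h * x - x * h = (k : ℝ) • x}

/-- products of elements of negative degree -/
inductive Neg (g : Submodule ℝ (Module.End ℝ T)) (h : Module.End ℝ T) : Module.End ℝ T → Prop
  | one : Neg g h 1
  | mul (x m : Module.End ℝ T) (k : ℤ) : k < 0 → x ∈ gr g h k → Neg g h m → Neg g h (x * m)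

theorem gr_bracket {g : Submodule ℝ (Module.End ℝ T)} {h : Module.End ℝ T}
    (hbr : ∀ x ∈ g, ∀ y ∈ g, x * y - y * x ∈ g) {k l : ℤ} {x y : Module.End ℝ T}
    (hx : x ∈ gr g h k) (hy : y ∈ gr g h l) : x * y - y * x ∈ gr g h (k + l) := by
  refine ⟨hbr x hx.1 y hy.1, ?_⟩
  have h1 : h * x = x * h + (k : ℝ) • x := by rw [← hx.2]; abel
  have h2 : h * y = y * h + (l : ℝ) • y := by rw [← hy.2]; abel
  have e1 : h * (x * y) = x * y * h + ((k : ℝ) + l) • (x * y) := by
    rw [← mul_assoc, h1, add_mul, smul_mul_assoc, mul_assoc x h y, h2, mul_add, mul_smul_comm,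
      ← mul_assoc, add_smul]
    abel
  have e2 : h * (y * x) = y * x * h + ((k : ℝ) + l) • (y * x) := by
    rw [← mul_assoc, h2, add_mul, smul_mul_assoc, mul_assoc y h x, h1, mul_add, mul_smul_comm,
      ← mul_assoc, add_smul]
    abel
  rw [mul_sub, sub_mul, e1, e2]
  push_cast
  rw [smul_sub]
  abel

theorem gr_apply {g : Submodule ℝ (Module.End ℝ T)} {h x : Module.End ℝ T} {k : ℤ}
    (hx : x ∈ gr g h k) {μ : ℝ} {w : T} (hw : h w = μ • w) : h (x w) = (μ + k) • x w := by
  have h1 : h * x = x * h + (k : ℝ) • x := by rw [← hx.2]; abel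
  have h2 := LinearMap.congr_fun h1 w
  rw [Module.End.mul_apply, LinearMap.add_apply, Module.End.mul_apply, hw, map_smul,
    LinearMap.smul_apply] at h2
  rw [h2, add_smul]

theorem vanish {h : Module.End ℝ T} (h3 : h * h * h = h) {μ : ℝ} {w : T} (hw : h w = μ • w)
    (hμ : μ ^ 3 ≠ μ) : w = 0 := by
  have h1 := LinearMap.congr_fun h3 w
  rw [Module.End.mul_apply, Module.End.mul_apply, hw, map_smul, hw, map_smul, map_smul, hw,
    smul_smul, smul_smul] at h1
  have h2 : (μ ^ 3 - μ) • w = 0 := by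
    rw [sub_smul, sub_eq_zero, ← h1]
    congr 1
    ring
  exact (smul_eq_zero.1 h2).resolve_left (sub_ne_zero.2 hμ)

theorem dec {g : Submodule ℝ (Module.End ℝ T)} {h : Module.End ℝ T}
    (hbr : ∀ x ∈ g, ∀ y ∈ g, x * y - y * x ∈ g) (hh : h ∈ g) (h3 : h * h * h = h)
    (x : Module.End ℝ T) (hx : x ∈ g) :
    ∃ x2 ∈ gr g h 2, ∃ x1 ∈ gr g h 1, ∃ x0 ∈ gr g h 0, ∃ y1 ∈ gr g h (-1), ∃ y2 ∈ gr g h (-2),
      x = x2 + x1 + x0 + y1 + y2 := by
  set P1 : Module.End ℝ T := (1 / 2 : ℝ) • (h * h + h) with hP1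
  set P0 : Module.End ℝ T := 1 - h * h with hP0
  set Pm : Module.End ℝ T := (1 / 2 : ℝ) • (h * h - h) with hPm
  have h3' : h * (h * h) = h := by rw [← mul_assoc]; exact h3
  have a1 : h * P1 = P1 := by
    rw [hP1, mul_smul_comm, mul_add, h3']
    congr 1
    abel
  have a0 : h * P0 = 0 := by rw [hP0, mul_sub, mul_one, h3', sub_self]
  have am : h * Pm = - Pm := by
    rw [hPm, mul_smul_comm, mul_sub, h3', ← smul_neg]
    congr 1
    abel
  have b1 : P1 * h = P1 := by
    rw [hP1, smul_mul_assoc, add_mul, h3]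
    congr 1
    abel
  have b0 : P0 * h = 0 := by rw [hP0, sub_mul, one_mul, h3, sub_self]
  have bm : Pm * h = - Pm := by
    rw [hPm, smul_mul_assoc, sub_mul, h3, ← smul_neg]
    congr 1
    abel
  have hsum : P1 + P0 + Pm = 1 := by
    rw [hP1, hP0, hPm]
    module
  -- degrees of the nine pieces
  have hD : ∀ (P Q : Module.End ℝ T) (p q : ℝ), h * P = p • P → Q * h = q • Q →
      h * (P * x * Q) - (P * x * Q) * h = (p - q) • (P * x * Q) := by
    intro P Q p q hp hq
    rw [← mul_assoc, ← mul_assoc, hp, mul_assoc (P * x) Q h, hq, smul_mul_assoc, smul_mul_assoc,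
      mul_smul_comm, sub_smul]
  have a1' : h * P1 = (1 : ℝ) • P1 := by rw [one_smul, a1]
  have a0' : h * P0 = (0 : ℝ) • P0 := by rw [zero_smul, a0]
  have am' : h * Pm = (-1 : ℝ) • Pm := by rw [neg_one_smul, am]
  have b1' : P1 * h = (1 : ℝ) • P1 := by rw [one_smul, b1]
  have b0' : P0 * h = (0 : ℝ) • P0 := by rw [zero_smul, b0]
  have bm' : Pm * h = (-1 : ℝ) • Pm := by rw [neg_one_smul, bm]
  set x2 := P1 * x * Pm with hx2
  set x1 := P1 * x * P0 + P0 * x * Pm with hx1
  set x0 := P1 * x * P1 + P0 * x * P0 + Pm * x * Pm with hx0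
  set y1 := P0 * x * P1 + Pm * x * P0 with hy1
  set y2 := Pm * x * P1 with hy2
  have hx' : x = x2 + x1 + x0 + y1 + y2 := by
    have e1 : x = (P1 + P0 + Pm) * x * (P1 + P0 + Pm) := by rw [hsum, one_mul, mul_one]
    conv_lhs => rw [e1]
    rw [hx2, hx1, hx0, hy1, hy2]
    simp only [add_mul, mul_add]
    abel
  have d2 : h * x2 - x2 * h = (2 : ℝ) • x2 := by
    rw [hx2, hD P1 Pm 1 (-1) a1' bm']
    norm_num
  have d1 : h * x1 - x1 * h = (1 : ℝ) • x1 := by
    have c1 := hD P1 P0 1 0 a1' b0'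
    have c2 := hD P0 Pm 0 (-1) a0' bm'
    rw [hx1, mul_add, add_mul, smul_add]
    rw [show (1 : ℝ) - 0 = 1 by norm_num] at c1
    rw [show (0 : ℝ) - (-1) = 1 by norm_num] at c2
    rw [← c1, ← c2]
    abel
  have d0 : h * x0 - x0 * h = (0 : ℝ) • x0 := by
    have c1 := hD P1 P1 1 1 a1' b1'
    have c2 := hD P0 P0 0 0 a0' b0'
    have c3 := hD Pm Pm (-1) (-1) am' bm'
    rw [sub_self] at c1 c2 c3
    rw [hx0, mul_add, mul_add, add_mul, add_mul, smul_add, smul_add, ← c1, ← c2, ← c3]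
    abel
  have e1 : h * y1 - y1 * h = (-1 : ℝ) • y1 := by
    have c1 := hD P0 P1 0 1 a0' b1'
    have c2 := hD Pm P0 (-1) 0 am' b0'
    rw [show (0 : ℝ) - 1 = -1 by norm_num] at c1
    rw [show (-1 : ℝ) - 0 = -1 by norm_num] at c2
    rw [hy1, mul_add, add_mul, smul_add, ← c1, ← c2]
    abel
  have e2 : h * y2 - y2 * h = (-2 : ℝ) • y2 := by
    rw [hy2, hD Pm P1 (-1) 1 am' b1']
    norm_num
  -- iterated brackets
  have hDg : ∀ y ∈ g, h * y - y * h ∈ g := fun y hy => hbr h hh y hy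
  set D1 := h * x - x * h with hD1
  set D2 := h * D1 - D1 * h with hD2
  set D3 := h * D2 - D2 * h with hD3
  set D4 := h * D3 - D3 * h with hD4
  have m1 : D1 ∈ g := hDg x hx
  have m2 : D2 ∈ g := hDg D1 m1
  have m3 : D3 ∈ g := hDg D2 m2
  have m4 : D4 ∈ g := hDg D3 m3
  have hlin : ∀ (α2 α1 α0 β1 β2 : ℝ),
      h * (α2 • x2 + α1 • x1 + α0 • x0 + β1 • y1 + β2 • y2) -
        (α2 • x2 + α1 • x1 + α0 • x0 + β1 • y1 + β2 • y2) * h =
      (2 * α2) • x2 + α1 • x1 + (0 : ℝ) • x0 + (-β1) • y1 + (-2 * β2) • y2 := by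
    intro α2 α1 α0 β1 β2
    have : h * (α2 • x2 + α1 • x1 + α0 • x0 + β1 • y1 + β2 • y2) -
        (α2 • x2 + α1 • x1 + α0 • x0 + β1 • y1 + β2 • y2) * h =
        α2 • (h * x2 - x2 * h) + α1 • (h * x1 - x1 * h) + α0 • (h * x0 - x0 * h) +
          β1 • (h * y1 - y1 * h) + β2 • (h * y2 - y2 * h) := by
      simp only [mul_add, add_mul, mul_smul_comm, smul_mul_assoc, smul_sub]
      abel
    rw [this, d2, d1, d0, e1, e2]
    module
  have q0 : x = (1 : ℝ) • x2 + (1 : ℝ) • x1 + (1 : ℝ) • x0 + (1 : ℝ) • y1 + (1 : ℝ) • y2 := by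
    simp only [one_smul]
    exact hx'
  have q1 : D1 = (2 * 1 : ℝ) • x2 + (1 : ℝ) • x1 + (0 : ℝ) • x0 + (-1 : ℝ) • y1 +
      (-2 * 1 : ℝ) • y2 := by
    rw [hD1]
    conv_lhs => rw [q0]
    exact hlin 1 1 1 1 1
  have q2 : D2 = (2 * (2 * 1) : ℝ) • x2 + (1 : ℝ) • x1 + (0 : ℝ) • x0 + (-(-1) : ℝ) • y1 +
      (-2 * (-2 * 1) : ℝ) • y2 := by
    rw [hD2, q1]
    exact hlin _ _ _ _ _
  have q3 : D3 = (2 * (2 * (2 * 1)) : ℝ) • x2 + (1 : ℝ) • x1 + (0 : ℝ) • x0 +
      (-(-(-1)) : ℝ) • y1 + (-2 * (-2 * (-2 * 1)) : ℝ) • y2 := by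
    rw [hD3, q2]
    exact hlin _ _ _ _ _
  have q4 : D4 = (2 * (2 * (2 * (2 * 1))) : ℝ) • x2 + (1 : ℝ) • x1 + (0 : ℝ) • x0 +
      (-(-(-(-1))) : ℝ) • y1 + (-2 * (-2 * (-2 * (-2 * 1))) : ℝ) • y2 := by
    rw [hD4, q3]
    exact hlin _ _ _ _ _
  have g2 : x2 ∈ g := by
    have : x2 = (1 / 24 : ℝ) • (D4 + (2 : ℝ) • D3 - D2 - (2 : ℝ) • D1) := by
      rw [q4, q3, q2, q1]
      module
    rw [this]
    exact g.smul_mem _ (g.sub_mem (g.sub_mem (g.add_mem m4 (g.smul_mem _ m3)) m2)
      (g.smul_mem _ m1))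
  have g1 : x1 ∈ g := by
    have : x1 = (-1 / 6 : ℝ) • (D4 + D3 - (4 : ℝ) • D2 - (4 : ℝ) • D1) := by
      rw [q4, q3, q2, q1]
      module
    rw [this]
    exact g.smul_mem _ (g.sub_mem (g.sub_mem (g.add_mem m4 m3) (g.smul_mem _ m2))
      (g.smul_mem _ m1))
  have k2 : y2 ∈ g := by
    have : y2 = (1 / 24 : ℝ) • (D4 - (2 : ℝ) • D3 - D2 + (2 : ℝ) • D1) := by
      rw [q4, q3, q2, q1]
      module
    rw [this]
    exact g.smul_mem _ (g.add_mem (g.sub_mem (g.sub_mem m4 (g.smul_mem _ m3)) m2)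
      (g.smul_mem _ m1))
  have k1 : y1 ∈ g := by
    have : y1 = (-1 / 6 : ℝ) • (D4 - D3 - (4 : ℝ) • D2 + (4 : ℝ) • D1) := by
      rw [q4, q3, q2, q1]
      module
    rw [this]
    exact g.smul_mem _ (g.add_mem (g.sub_mem (g.sub_mem m4 m3) (g.smul_mem _ m2))
      (g.smul_mem _ m1))
  have g0 : x0 ∈ g := by
    have : x0 = x - x2 - x1 - y1 - y2 := by
      conv_rhs => rw [hx']
      abel
    rw [this]
    exact g.sub_mem (g.sub_mem (g.sub_mem (g.sub_mem hx g2) g1) k1) k2
  refine ⟨x2, ⟨g2, ?_⟩, x1, ⟨g1, ?_⟩, x0, ⟨g0, ?_⟩, y1, ⟨k1, ?_⟩, y2, ⟨k2, ?_⟩, hx'⟩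
  · rw [d2]; norm_num
  · rw [d1]; norm_num
  · rw [d0]; norm_num
  · rw [e1]; norm_num
  · rw [e2]; norm_num

theorem T_JJ : S_JJ := by
  intro T _ _ _ b g hG h hh h3 _ _ j hj hjc
  classical
  by_cases hV : ∃ v, h v = v ∧ v ≠ 0
  swap
  · refine ⟨0, fun x _ => by rw [mul_zero, zero_mul], fun v hv => ?_⟩
    have : v = 0 := by
      by_contra hne
      exact hV ⟨v, hv, hne⟩
    rw [this, map_zero, map_zero]
  obtain ⟨v0, hv0, hv0ne⟩ := hV
  -- the subspace
  set R : Submodule ℝ (T × T) := Submodule.span ℝ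
    {q : T × T | ∃ m v, Neg g h m ∧ h v = v ∧ q = (m v, m (j v))} with hR
  have hgen : ∀ m v, Neg g h m → h v = v → (m v, m (j v)) ∈ R := fun m v hm hv =>
    Submodule.subset_span ⟨m, v, hm, hv, rfl⟩
  -- stable under negative elements
  have hneg : ∀ (x : Module.End ℝ T) (k : ℤ), k < 0 → x ∈ gr g h k →
      ∀ q ∈ R, (x q.1, x q.2) ∈ R := by
    intro x k hk hx q hq
    have : q ∈ R.comap (LinearMap.prodMap x x) := by
      refine (Submodule.span_le.2 ?_) hq
      rintro _ ⟨m, v, hm, hv, rfl⟩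
      exact hgen (x * m) v (Neg.mul x m k hk hx hm) hv
    exact this
  have key : ∀ m, Neg g h m → ∀ (k : ℤ), ∀ a ∈ gr g h k, ∀ v, h v = v →
      (a (m v), a (m (j v))) ∈ R := by
    intro m hm
    induction hm with
    | one =>
      intro k a ha v hv
      change (a v, a (j v)) ∈ R
      rcases lt_trichotomy k 0 with hk | hk | hk
      · have := hgen (a * 1) v (Neg.mul a 1 k hk ha Neg.one) hv
        rwa [mul_one] at this
      · subst hk
        have hcomm : a * h = h * a := by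
          have := ha.2
          rw [Int.cast_zero, zero_smul, sub_eq_zero] at this
          exact this.symm
        rw [hjc a ha.1 hcomm v hv]
        have hav : h (a v) = a v := by
          have := LinearMap.congr_fun hcomm v
          rw [Module.End.mul_apply, Module.End.mul_apply, hv] at this
          exact this.symm
        exact hgen 1 (a v) Neg.one hav
      · have hz : ∀ w, h w = w → a w = 0 := by
          intro w hw
          have h1 : h w = (1 : ℝ) • w := by rw [one_smul, hw]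
          refine vanish h3 (gr_apply ha h1) ?_
          have hk' : (1 : ℝ) ≤ k := by exact_mod_cast hk
          intro he
          nlinarith [sq_nonneg ((1 : ℝ) + k)]
        rw [hz v hv, hz (j v) (hj v hv)]
        exact R.zero_mem
    | mul x m l hl hx hm ih =>
      intro k a ha v hv
      have hb := gr_bracket hG.bracket ha hx
      have h1 := ih (k + l) _ hb v hv
      have h2 := hneg x l hl hx _ (ih k a ha v hv)
      have h4 := R.add_mem h1 h2
      have e : ∀ w, a ((x * m) w) = (a * x - x * a) (m w) + x (a (m w)) := by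
        intro w
        rw [Module.End.mul_apply, LinearMap.sub_apply, Module.End.mul_apply, Module.End.mul_apply,
          sub_add_cancel]
      rw [e v, e (j v)]
      exact h4
  -- stable under `g`
  have hst : ∀ x ∈ g, ∀ q ∈ R, (x q.1, x q.2) ∈ R := by
    intro x hx q hq
    have : q ∈ R.comap (LinearMap.prodMap x x) := by
      refine (Submodule.span_le.2 ?_) hq
      rintro _ ⟨m, v, hm, hv, rfl⟩
      change (x (m v), x (m (j v))) ∈ R
      obtain ⟨x2, h2, x1, h1, x0, h0, y1, k1, y2, k2, he⟩ := dec hG.bracket hh h3 x hx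
      have s := R.add_mem (R.add_mem (R.add_mem (R.add_mem (key m hm _ x2 h2 v hv)
        (key m hm _ x1 h1 v hv)) (key m hm _ x0 h0 v hv)) (key m hm _ y1 k1 v hv))
        (key m hm _ y2 k2 v hv)
      rw [he]
      exact s
    exact this
  -- the part of degree one
  set E : Module.End ℝ T := (1 / 2 : ℝ) • (h * h + h) with hE
  have hEa : ∀ w, E w = (1 / 2 : ℝ) • (h (h w) + h w) := fun w => rfl
  have hE1 : ∀ w, h w = w → E w = w := by
    intro w hw
    rw [hEa, hw, hw, ← two_smul ℝ w, smul_smul]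
    norm_num
  have hEneg : ∀ (x : Module.End ℝ T) (k : ℤ), k < 0 → x ∈ gr g h k → ∀ w, E (x w) = 0 := by
    intro x k hk hx w
    have hk' : (k : ℝ) ≤ -1 := by exact_mod_cast (by omega : k ≤ -1)
    have hμ : ∀ (μ : ℝ) (u : T), μ ≤ 0 → h u = μ • u → E u = 0 := by
      intro μ u hμ0 hu
      by_cases h4 : μ ^ 3 = μ
      · have h5 : μ * (μ + 1) = 0 := by
          have h6 : (μ * (μ + 1)) * (μ - 1) = 0 := by linear_combination h4
          rcases mul_eq_zero.1 h6 with h | h
          · exact h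
          · exfalso; linarith
        rw [hEa, hu, map_smul, hu, smul_smul, ← add_smul,
          show μ * μ + μ = μ * (μ + 1) by ring, h5, zero_smul, smul_zero]
      · rw [vanish h3 hu h4, map_zero]
    have h3a : ∀ u, h (h (h u)) = h u := fun u => LinearMap.congr_fun h3 u
    have hw : w = (1 / 2 : ℝ) • (h (h w) + h w) + (w - h (h w)) +
        (1 / 2 : ℝ) • (h (h w) - h w) := by module
    rw [hw, map_add, map_add, map_add, map_add]
    have w1 : h ((1 / 2 : ℝ) • (h (h w) + h w)) = (1 : ℝ) • ((1 / 2 : ℝ) • (h (h w) + h w)) := by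
      rw [map_smul, map_add, h3a, one_smul]
      congr 1
      abel
    have w0 : h (w - h (h w)) = (0 : ℝ) • (w - h (h w)) := by
      rw [map_sub, h3a, sub_self, zero_smul]
    have wm : h ((1 / 2 : ℝ) • (h (h w) - h w)) =
        (-1 : ℝ) • ((1 / 2 : ℝ) • (h (h w) - h w)) := by
      rw [map_smul, map_sub, h3a]
      module
    rw [hμ _ _ (by linarith) (gr_apply hx w1), hμ _ _ (by linarith) (gr_apply hx w0),
      hμ _ _ (by linarith) (gr_apply hx wm), add_zero, add_zero]
  have hR' : ∀ q ∈ R, E q.2 = j (E q.1) := by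
    intro q hq
    have : q ∈ LinearMap.eqLocus (E ∘ₗ LinearMap.snd ℝ T T)
        (j ∘ₗ E ∘ₗ LinearMap.fst ℝ T T) := by
      refine (Submodule.span_le.2 ?_) hq
      rintro _ ⟨m, v, hm, hv, rfl⟩
      change E (m (j v)) = j (E (m v))
      cases hm with
      | one =>
        change E (j v) = j (E v)
        rw [hE1 _ (hj v hv), hE1 v hv]
      | mul x m k hk hx hm =>
        rw [Module.End.mul_apply, Module.End.mul_apply, hEneg x k hk hx, hEneg x k hk hx,
          map_zero]
    exact this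
  -- the kernel of the first projection
  have hW : ∀ w, ((0 : T), w) ∈ R → w = 0 := by
    rcases hG.irr (R.comap (LinearMap.inr ℝ T T)) (by
      intro x hx u hu
      have := hst x hx _ hu
      change ((0 : T), x u) ∈ R
      change (x (0 : T), x u) ∈ R at this
      rwa [map_zero] at this) with h4 | h4
    · intro w hw
      have : w ∈ R.comap (LinearMap.inr ℝ T T) := hw
      rw [h4] at this
      exact (Submodule.mem_bot ℝ).1 this
    · exfalso
      have h5 : v0 ∈ R.comap (LinearMap.inr ℝ T T) := by rw [h4]; trivial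
      have h6 := hR' _ h5
      change E v0 = j (E 0) at h6
      rw [hE1 v0 hv0, map_zero, map_zero] at h6
      exact hv0ne h6
  have hU : ∀ t, ∃ w, (t, w) ∈ R := by
    rcases hG.irr (R.map (LinearMap.fst ℝ T T)) (by
      rintro x hx _ ⟨q, hq, rfl⟩
      exact ⟨_, hst x hx q hq, rfl⟩) with h4 | h4
    · exfalso
      have h5 : v0 ∈ R.map (LinearMap.fst ℝ T T) := ⟨_, hgen 1 v0 Neg.one hv0, rfl⟩
      rw [h4] at h5
      exact hv0ne ((Submodule.mem_bot ℝ).1 h5)
    · intro t
      have : t ∈ R.map (LinearMap.fst ℝ T T) := by rw [h4]; trivial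
      obtain ⟨q, hq, rfl⟩ := this
      exact ⟨q.2, hq⟩
  choose J hJ using hU
  have huniq : ∀ t w, (t, w) ∈ R → w = J t := by
    intro t w hw
    have h4 := R.sub_mem hw (hJ t)
    have h5 : ((t, w) : T × T) - (t, J t) = (0, w - J t) := by
      rw [Prod.mk_sub_mk, sub_self]
    rw [h5] at h4
    exact sub_eq_zero.1 (hW _ h4)
  let J' : Module.End ℝ T :=
    { toFun := J
      map_add' := fun s t => by
        refine (huniq (s + t) (J s + J t) ?_).symm
        exact R.add_mem (hJ s) (hJ t)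
      map_smul' := fun c t => by
        refine (huniq (c • t) (c • J t) ?_).symm
        exact R.smul_mem c (hJ t) }
  refine ⟨J', fun x hx => ?_, fun v hv => ?_⟩
  · ext t
    change x (J t) = J (x t)
    exact huniq _ _ (hst x hx _ (hJ t))
  · change J v = j v
    exact (huniq v (j v) (hgen 1 v Neg.one hv)).symm

end W973.DK
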